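import Mathlib
import Pool.Agent.H138Z.RankChi

set_option autoImplicit false

namespace Pool.Agent.Results.MP_3bd889_lc.AHereditary

/-- If a finite graph `G` has no induced subgraph isomorphic to a graph `H` on `k` vertices and
its adjacency matrix has real rank `r > 1`, then `log₂ χ(G) ≤ 13 k (log₂ r) ^ 2`. -/
theorem result (k : ℕ) (H : SimpleGraph (Fin k)) (n : ℕ) (G : SimpleGraph (Fin n))
    [DecidableRel G.Adj] (hH : IsEmpty (H ↪g G)) (hr : 1 < (G.adjMatrix ℝ).rank) :
    Real.logb 2 (G.chromaticNumber.toNat : ℝ) ≤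
      13 * k * (Real.logb 2 ((G.adjMatrix ℝ).rank : ℝ)) ^ 2 :=
  Pool.Agent.H138Z.RankChi.main hH hr

end Pool.Agent.Results.MP_3bd889_lc.AHereditary
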